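import Mathlib

/-!
Ginsburg, Rival and Sands asked whether an ordered set in which every element has a chain cutset
has width at most four. We give a poset with 15 elements in which every element has a chain cutset
and which has an antichain with five elements.
-/

set_option autoImplicit false

namespace Pool.Agent.Results.MP_79bc23_co.WidthFive

/-- `K` is a cutset of `P`: it meets every maximal chain of `P`. -/
def IsCutset {P : Type} [PartialOrder P] (K : Set P) : Prop :=
  ∀ C : Set P, IsMaxChain (· ≤ ·) C → (K ∩ C).Nonempty

/-- `K` is a chain cutset for `x`: `K` is a chain, each element of `K` is incomparable to `x`,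
and `K ∪ {x}` is a cutset. -/
def IsChainCutsetFor {P : Type} [PartialOrder P] (x : P) (K : Set P) : Prop :=
  IsChain (· ≤ ·) K ∧ (∀ y ∈ K, ¬ x ≤ y ∧ ¬ y ≤ x) ∧ IsCutset (K ∪ {x})

/-- up-sets of the 15 elements, as bit masks -/
def up : List Nat := [32611, 25122, 32764, 29368, 25136, 25120, 32576, 12416, 32000, 25088, 13312, 18432, 12288, 8192, 16384]
/-- upper covers of the 15 elements, as bit masks -/
def cov : List Nat := [66, 32, 72, 144, 32, 512, 768, 4096, 3072, 24576, 4096, 16384, 8192, 0, 0]
/-- the chain cutsets, as bit masks -/
def kk : List Nat := [4, 68, 1, 65, 4161, 4160, 40, 577, 520, 4352, 16904, 8712, 16896, 16384, 8192]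
/-- the certificates, as bit masks -/
def rr : List Nat := [0, 1, 0, 4, 140, 159, 7, 60, 103, 255, 2407, 5479, 3583, 8191, 8191]
/-- read a table -/
def tb (l : List Nat) (i j : Fin 15) : Bool := (l.getD i.1 0).testBit j.1

/-- the fifteen-element poset -/
def P : Type := Fin 15

/-- the order -/
def leP (i j : Fin 15) : Prop := tb up i j = true

instance (i j : Fin 15) : Decidable (leP i j) := inferInstanceAs (Decidable (_ = true))

theorem le_refl' : ∀ i : Fin 15, leP i i := by decide +kernel
theorem le_trans' : ∀ i j k : Fin 15, leP i j → leP j k → leP i k := by decide +kernel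
theorem le_antisymm' : ∀ i j : Fin 15, leP i j → leP j i → i = j := by decide +kernel

instance : PartialOrder P where
  le := leP
  le_refl := le_refl'
  le_trans := le_trans'
  le_antisymm := le_antisymm'

theorem le_def (i j : P) : i ≤ j ↔ leP i j := Iff.rfl

theorem cov_spec' : ∀ y z : Fin 15, leP y z → y ≠ z → (∀ w : Fin 15, leP y w → leP w z → w = y ∨ w = z) →
    tb cov y z = true := by decide +kernel

theorem cov_spec (y z : P) (h : y ≤ z) (h' : y ≠ z) (hw : ∀ w : P, y ≤ w → w ≤ z → w = y ∨ w = z) :
    tb cov y z = true := cov_spec' y z h h' hw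

theorem cert1' : ∀ x y : Fin 15, (∀ z : Fin 15, leP z y → z = y) →
    (tb kk x y = true ∨ y = x) ∨ tb rr x y = true := by decide +kernel

theorem cert1 (x y : P) (h : ∀ z : P, z ≤ y → z = y) :
    (tb kk x y = true ∨ y = x) ∨ tb rr x y = true := cert1' x y h

theorem cert2 : ∀ x y z : Fin 15, tb rr x y = true → tb cov y z = true →
    (tb kk x z = true ∨ z = x) ∨ tb rr x z = true := by decide +kernel

theorem cert3' : ∀ x y : Fin 15, tb rr x y = true → ∃ z : Fin 15, leP y z ∧ z ≠ y := by decide +kernel

theorem cert3 (x y : P) (h : tb rr x y = true) : ∃ z : P, y ≤ z ∧ z ≠ y := cert3' x y h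

theorem kchain : ∀ x y z : Fin 15, tb kk x y = true → tb kk x z = true → leP y z ∨ leP z y := by
  decide +kernel

theorem kinc : ∀ x y : Fin 15, tb kk x y = true → ¬ leP x y ∧ ¬ leP y x := by decide +kernel

instance : Finite P := inferInstanceAs (Finite (Fin 15))
instance : Nonempty P := ⟨(0 : Fin 15)⟩

/-- a maximal chain contains everything comparable to all of its elements -/
theorem mem_of_comp {C : Set P} (hC : IsMaxChain (· ≤ ·) C) (z : P)
    (h : ∀ c ∈ C, z ≤ c ∨ c ≤ z) : z ∈ C := by
  have h1 : IsChain (· ≤ ·) (insert z C) := hC.1.insert (fun b hb _ => h b hb)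
  have h2 := hC.2 h1 (Set.subset_insert z C)
  rw [h2]
  exact Set.mem_insert z C

theorem chain_tot {C : Set P} (hC : IsChain (· ≤ ·) C) {a b : P} (ha : a ∈ C) (hb : b ∈ C) :
    a ≤ b ∨ b ≤ a := by
  by_cases h : a = b
  · left; rw [h]
  · exact hC ha hb h

theorem cutset (x : P) : IsCutset ({y : P | tb kk x y = true} ∪ {x}) := by
  intro C hC
  by_contra hemp
  rw [Set.not_nonempty_iff_eq_empty] at hemp
  have havoid : ∀ c ∈ C, ¬ (tb kk x c = true ∨ c = x) := by
    intro c hc h
    have : c ∈ ({y : P | tb kk x y = true} ∪ {x}) ∩ C := ⟨h, hc⟩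
    rw [hemp] at this
    exact this
  have hr : ∀ c : P, c ∈ C → tb rr x c = true := by
    intro c
    induction c using (wellFounded_lt (α := P)).induction with
    | _ c ih =>
      intro hc
      by_cases hmin : ∃ d ∈ C, d < c
      · obtain ⟨d, hd⟩ := (Set.toFinite {d : P | d ∈ C ∧ d < c}).exists_maximal
          (by obtain ⟨d, h1, h2⟩ := hmin; exact ⟨d, h1, h2⟩)
        have hdC : d ∈ C := hd.1.1
        have hdc : d < c := hd.1.2
        have hgr : ∀ e ∈ C, e < c → e ≤ d := by
          intro e he hec
          rcases chain_tot hC.1 he hdC with h | h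
          · exact h
          · exact hd.2 ⟨he, hec⟩ h
        have hcv : tb cov d c = true := by
          apply cov_spec d c hdc.le hdc.ne
          intro w hw1' hw2'
          have hwC : w ∈ C := by
            apply mem_of_comp hC
            intro e he
            rcases chain_tot hC.1 he hc with h | h
            · rcases h.lt_or_eq with h' | h'
              · right; exact (hgr e he h').trans hw1'
              · left; rw [h']; exact hw2'
            · left; exact hw2'.trans h
          rcases hw2'.lt_or_eq with h' | h'
          · left; exact le_antisymm (hgr w hwC h') hw1'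
          · right; exact h'
        rcases cert2 x d c (ih d hdc hdC) hcv with h | h
        · exact absurd h (havoid c hc)
        · exact h
      · have hmin' : ∀ z : P, z ≤ c → z = c := by
          intro z hz'
          have hzC : z ∈ C := by
            apply mem_of_comp hC
            intro e he
            rcases chain_tot hC.1 he hc with h | h
            · rcases h.lt_or_eq with h' | h'
              · exact absurd ⟨e, he, h'⟩ hmin
              · left; rw [h']; exact hz'
            · left; exact hz'.trans h
          rcases hz'.lt_or_eq with h' | h'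
          · exact absurd ⟨_, hzC, h'⟩ hmin
          · exact h'
        rcases cert1 x c hmin' with h | h
        · exact absurd h (havoid c hc)
        · exact h
  have hne : C.Nonempty := by
    by_contra h
    rw [Set.not_nonempty_iff_eq_empty] at h
    have : (Classical.arbitrary P) ∈ C :=
      mem_of_comp hC _ (by rw [h]; intro c hc; exact absurd hc (Set.notMem_empty c))
    rw [h] at this
    exact this
  obtain ⟨m, hm⟩ := (Set.toFinite C).exists_maximal hne
  obtain ⟨z, hz1', hz2⟩ := cert3 x m (hr m hm.1)
  have hzC : z ∈ C := by
    apply mem_of_comp hC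
    intro e he
    right
    rcases chain_tot hC.1 he hm.1 with h | h
    · exact h.trans hz1'
    · exact (hm.2 he h).trans hz1'
  exact hz2 (le_antisymm (hm.2 hzC hz1') hz1')

/-- the five-element antichain -/
def anti : List (Fin 15) := [1, 4, 7, 10, 11]

theorem anti_spec : ∀ a b : Fin 15, a ∈ anti → b ∈ anti → a ≠ b → ¬ leP a b := by decide +kernel

/-- There is a partially ordered set with 15 elements in which every element has a chain cutset
and which has an antichain of five elements. -/
theorem result : ∃ (P : Type) (_ : PartialOrder P), Nat.card P = 15 ∧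
    (∀ x : P, ∃ K : Set P, IsChainCutsetFor x K) ∧
    ∃ A : Set P, IsAntichain (· ≤ ·) A ∧ A.encard = 5 := by
  refine ⟨P, inferInstance, Nat.card_fin 15, ?_, ?_⟩
  · intro x
    refine ⟨{y : P | tb kk x y = true}, ?_, ?_, cutset x⟩
    · intro a ha b hb _
      exact kchain x a b ha hb
    · intro y hy
      exact kinc x y hy
  · refine ⟨{a : P | a ∈ anti}, ?_, ?_⟩
    · intro a ha b hb hab
      exact anti_spec a b ha hb hab
    · have h1 : {a : P | a ∈ anti} = ((({1, 4, 7, 10, 11} : Finset (Fin 15)) : Set (Fin 15))) := by
        ext a
        have h0 : ∀ a : Fin 15, a ∈ anti ↔ a ∈ ({1, 4, 7, 10, 11} : Finset (Fin 15)) := by decide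
        exact h0 a
      have h2 : (({1, 4, 7, 10, 11} : Finset (Fin 15))).card = 5 := by decide
      have h3 : Set.encard ((({1, 4, 7, 10, 11} : Finset (Fin 15)) : Set (Fin 15))) = 5 := by
        rw [Set.encard_coe_eq_coe_finsetCard, h2]; rfl
      exact (congrArg Set.encard h1).trans h3

end Pool.Agent.Results.MP_79bc23_co.WidthFive
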